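import Pool.Agent.W5h66.CX.G

/-!
# Boyd's conjecture for the Coxeter elements of Lorentzian type

Let `A` be an integral matrix of any size `n` with diagonal entries `2` which is symmetrizable
(`d_i A_ij = d_j A_ji` with `d_i > 0`), such that the symmetric matrix `(d_i A_ij)` has at most one
negative eigenvalue. Let `F = F_A` be the Coxeter polynomial of `A`: the determinant of the matrix with
diagonal entries `X + 1`, entries `A_ij X` above and `A_ij` below the diagonal. If the entries outside
the diagonal are not positive then `A` is a generalised Cartan matrix, and `F` is the characteristic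
polynomial of the Coxeter element `s_1 s_2 ⋯ s_n` of its Weyl group (for all orders of the simple
reflections, that is for all acyclic orientations of the diagram, because the rows and columns may be
numbered in any order); for instance all crystallographic Coxeter groups of hyperbolic signature.
`F` is self-reciprocal. Its Mahler measure is `1` or a Salem number or a quadratic unit; Lehmer's
number is the case of the diagram `E_10`.

Let `G` be the Coxeter polynomial of the matrix without the row and the column `i`. Then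
`|F + (z - 1) G|² = |F|² + |z - 1|² |G|²` on the unit circle, the polynomial `F + (X - 1) G` has at most
one zero outside the unit circle, and its measure is at most `2 max(M(F), M(G))`. So the height
`∫ log max(|F|, |z - 1| |G|)` of the pair is at most `log 2 + log max(M(F), M(G))` (1). If the
entries outside the diagonal are not positive then `M(G) ≤ M(F)` (2).

Consequences. The set `coxeterMeasures` of all the measures of Coxeter elements, all `n` and all `A`
with nonpositive entries outside the diagonal, and the set `signedMeasures κ` of the measures of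
matrices with entries of arbitrary signs for which some `i` satisfies `M(G) ≤ κ(M(F))` and `F`, `G`
have no common zero outside the unit circle (`κ` a monotone function, given once and for all), have
coprime companions of height at most `log M + 2 log 2 + log max(1, κ(M))` (3), (4). Hence the closure
of the multiplicative monoid generated by these sets and by any other class with bounded companions
consists of Mahler measures of integer polynomials in several variables; it has a gap above `1`, and
below every bound it has finite Cantor-Bendixson rank (5).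
-/

set_option autoImplicit false

namespace Pool.Agent.Results.MP_6d22ea_nt.CoxeterElements

open Polynomial

noncomputable section

/-- Value of an integer polynomial in `k` variables at the torus point
`(exp (2 π i t_1), …, exp (2 π i t_k))`. -/
def value {k : ℕ} (F : MvPolynomial (Fin k) ℤ) (t : Fin k → ℝ) : ℂ :=
  MvPolynomial.eval
    (fun j : Fin k => Complex.exp (2 * (Real.pi : ℂ) * Complex.I * ((t j : ℝ) : ℂ)))
    (MvPolynomial.map (Int.castRingHom ℂ) F)

/-- The Mahler measure of an integer polynomial in `k` variables. -/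
def mahler {k : ℕ} (F : MvPolynomial (Fin k) ℤ) : ℝ :=
  Real.exp (∫ t in Set.Icc (0 : Fin k → ℝ) 1, Real.log ‖value F t‖)

/-- The integral of `log max(|F|, |G|)` over the torus. -/
def pairHeight {k : ℕ} (F G : MvPolynomial (Fin k) ℤ) : ℝ :=
  ∫ t in Set.Icc (0 : Fin k → ℝ) 1, Real.log (max ‖value F t‖ ‖value G t‖)

/-- The set of the Mahler measures of the nonzero integer polynomials in any number of variables. -/
def allMeasures : Set ℝ :=
  {x : ℝ | ∃ k : ℕ, 1 ≤ k ∧ ∃ F : MvPolynomial (Fin k) ℤ, F ≠ 0 ∧ x = mahler F}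

/-- The Mahler measures of the nonzero polynomials `F` having a coprime companion `G ≠ 0` with
`∫ log max(|F|, |G|) ≤ K`. -/
def L (K : ℝ) : Set ℝ :=
  {x : ℝ | ∃ k : ℕ, 1 ≤ k ∧ ∃ F G : MvPolynomial (Fin k) ℤ, F ≠ 0 ∧ G ≠ 0 ∧ IsRelPrime F G ∧
    pairHeight F G ≤ K ∧ x = mahler F}

/-- For every `B` some `L K` contains all elements of `T` below `B`. -/
def BoundedCompanions (T : Set ℝ) : Prop := ∀ B : ℝ, ∃ K : ℝ, T ∩ Set.Iio B ⊆ L K

/-- The value of an integer polynomial in one variable at a complex number. -/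
def at1 (P : ℤ[X]) (z : ℂ) : ℂ := (P.map (Int.castRingHom ℂ)).eval z

/-- The Mahler measure of an integer polynomial in one variable (Mathlib). -/
def measure (P : ℤ[X]) : ℝ := (P.map (Int.castRingHom ℂ)).mahlerMeasure

/-- `A` has diagonal entries `2`, the matrix `(d_i A_ij)` is symmetric with `d_i > 0`, and it has at
most one negative eigenvalue, that is, the quadratic form `∑ d_i A_ij x_i x_j` becomes positive
semidefinite when the square of a linear form is added. -/
structure IsLorentzian {n : ℕ} (A : Matrix (Fin n) (Fin n) ℤ) (d : Fin n → ℝ) : Prop where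
  diag : ∀ i, A i i = 2
  pos : ∀ i, 0 < d i
  symm : ∀ i j, d i * A i j = d j * A j i
  lorentz : ∃ v : Fin n → ℝ, ∀ x : Fin n → ℝ,
    0 ≤ ∑ i, ∑ j, d i * A i j * x i * x j + (∑ i, v i * x i) ^ 2

/-- The Coxeter polynomial. -/
def coxeter {n : ℕ} (A : Matrix (Fin n) (Fin n) ℤ) : ℤ[X] :=
  (Matrix.of fun i j => if i < j then C (A i j) * X else if j < i then C (A i j) else X + 1).det

/-- The matrix without the row and the column `i`. -/
def delete {n : ℕ} (A : Matrix (Fin (n + 1)) (Fin (n + 1)) ℤ) (i : Fin (n + 1)) :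
    Matrix (Fin n) (Fin n) ℤ := A.submatrix i.succAbove i.succAbove

/-- The measures of the Coxeter elements: nonpositive entries outside the diagonal. -/
def coxeterMeasures : Set ℝ :=
  {x : ℝ | ∃ (n : ℕ) (A : Matrix (Fin n) (Fin n) ℤ) (d : Fin n → ℝ), IsLorentzian A d ∧
    (∀ i j, i ≠ j → A i j ≤ 0) ∧ x = measure (coxeter A)}

/-- Entries of arbitrary signs: the measures `M(F)` for which some minor `G` has `M(G) ≤ κ(M(F))` and
no zero outside the unit circle in common with `F`. -/
def signedMeasures (κ : ℝ → ℝ) : Set ℝ :=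
  {x : ℝ | ∃ (n : ℕ) (A : Matrix (Fin (n + 1)) (Fin (n + 1)) ℤ) (d : Fin (n + 1) → ℝ)
    (i : Fin (n + 1)), IsLorentzian A d ∧ measure (coxeter (delete A i)) ≤ κ x ∧
    (∀ z : ℂ, 1 < ‖z‖ → at1 (coxeter A) z = 0 → at1 (coxeter (delete A i)) z ≠ 0) ∧
    x = measure (coxeter A)}

theorem coxeter_eq {n : ℕ} (A : Matrix (Fin n) (Fin n) ℤ) :
    coxeter A = Pool.Agent.W5h66.CX.cox A := by
  unfold coxeter Pool.Agent.W5h66.CX.cox Pool.Agent.W5h66.CX.pol Pool.Agent.W5h66.CX.pnc
    Pool.Agent.W5h66.CX.up Pool.Agent.W5h66.CX.lo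
  congr 1
  ext1 i j
  rcases lt_trichotomy i j with h | h | h
  · simp [h, h.not_gt, h.ne]
    exact mul_comm _ _
  · subst h
    simp
  · simp [h, h.not_gt, h.ne']

theorem result (κ : ℝ → ℝ) (hκ : Monotone κ) :
    (∀ (n : ℕ) (A : Matrix (Fin (n + 1)) (Fin (n + 1)) ℤ) (d : Fin (n + 1) → ℝ)
      (i : Fin (n + 1)), IsLorentzian A d →
      (∀ z : ℂ, ‖z‖ = 1 → ‖at1 (coxeter A) z + (z - 1) * at1 (coxeter (delete A i)) z‖ ^ 2 =
        ‖at1 (coxeter A) z‖ ^ 2 + ‖(z - 1) * at1 (coxeter (delete A i)) z‖ ^ 2) ∧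
      measure (coxeter A + (X - 1) * coxeter (delete A i)) ≤
        2 * max (measure (coxeter A)) (measure (coxeter (delete A i))) ∧
      ((∀ a b, a ≠ b → A a b ≤ 0) →
        measure (coxeter (delete A i)) ≤ measure (coxeter A))) ∧
    (∀ x ∈ coxeterMeasures, x ∈ L (Real.log x + 2 * Real.log 2)) ∧
    (∀ x ∈ signedMeasures κ, x ∈ L (Real.log x + 2 * Real.log 2 + Real.log (max 1 (κ x)))) ∧
    BoundedCompanions (coxeterMeasures ∪ signedMeasures κ) ∧
    ∀ T : Set ℝ, BoundedCompanions T → ∃ M : Submonoid ℝ,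
      M = Submonoid.closure (T ∪ (coxeterMeasures ∪ signedMeasures κ)) ∧
      BoundedCompanions (M : Set ℝ) ∧ closure (M : Set ℝ) ⊆ allMeasures ∧
      (∃ δ : ℝ, 1 < δ ∧ ∀ x ∈ M, x = 1 ∨ δ ≤ x) ∧
      ∀ B : ℝ, ∃ s : ℕ, ∀ x ∈ derivedSet^[s] (M : Set ℝ), B ≤ x := by
  have hdat : ∀ (n : ℕ) (A : Matrix (Fin n) (Fin n) ℤ) (d : Fin n → ℝ), IsLorentzian A d →
      Pool.Agent.W5h66.CX.Dat A d := fun n A d h => ⟨h.diag, h.pos, h.symm, h.lorentz⟩
  have hcox : ∀ x ∈ coxeterMeasures, x = 1 ∨
      ∃ P : ℤ[X], Pool.Agent.Y820.LB.Good (2 * Real.log 2) P ∧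
        x = Pool.Agent.H261R2.CM.m1 P := by
    rintro x ⟨n, A, d, h, hA, rfl⟩
    rw [coxeter_eq]
    exact Pool.Agent.W5h66.CX.coxeter_good n A d (hdat n A d h) hA
  have hsig : ∀ x ∈ signedMeasures κ, x = 1 ∨
      ∃ P : ℤ[X], Pool.Agent.Y820.LB.Good (2 * Real.log 2 + Real.log (max 1 (κ x))) P ∧
        x = Pool.Agent.H261R2.CM.m1 P := by
    rintro x ⟨n, A, d, i, h, h1, h2, h3⟩
    right
    refine ⟨Pool.Agent.W5h66.CX.cox A, ?_, by rw [h3, coxeter_eq]; rfl⟩
    have hx1 : 1 ≤ x := by
      rw [h3, coxeter_eq]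
      exact Pool.Agent.W5h66.CX.Dat.one_le A
    refine (hdat _ A d h).good i (max 1 (κ x)) ?_ (le_max_left _ _) ?_
    · change measure (Pool.Agent.W5h66.CX.cox (delete A i)) ≤ _ * measure _
      rw [← coxeter_eq, ← coxeter_eq, ← h3]
      have h4 : κ x ≤ max 1 (κ x) := le_max_right _ _
      have h5 : 1 ≤ max 1 (κ x) := le_max_left _ _
      nlinarith
    · intro z hz hz0
      change at1 (Pool.Agent.W5h66.CX.cox (delete A i)) z ≠ 0
      rw [← coxeter_eq]
      refine h2 z hz ?_
      rw [coxeter_eq]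
      exact hz0
  have hmem : ∀ (c x : ℝ), 0 ≤ c → (x = 1 ∨ ∃ P : ℤ[X], Pool.Agent.Y820.LB.Good c P ∧
      x = Pool.Agent.H261R2.CM.m1 P) → x ∈ L (Real.log x + c) := by
    rintro c x hc (rfl | ⟨P, hP, hx⟩)
    · rw [Real.log_one, zero_add]
      exact Pool.Agent.H261R2.CM.LL_mono hc Pool.Agent.TH845.KN.one_mem_LL
    · rcases Pool.Agent.Y820.LB.good_pair _ _ hP with h3 | ⟨D, Q, R, _, h4, h5, h6, _, h8, h9⟩
      · rw [← hx] at h3
        rw [h3, Real.log_one, zero_add]
        exact Pool.Agent.H261R2.CM.LL_mono hc Pool.Agent.TH845.KN.one_mem_LL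
      · rw [← hx] at h8
        rw [h8]
        exact Pool.Agent.W242.IM.m1_mem_LL Q R h4 h5 h6 _ h9
  have hlog2 : 0 ≤ 2 * Real.log 2 := by positivity
  have hB1 : Pool.Agent.TH845.KN.BC coxeterMeasures :=
    Pool.Agent.W5h66.CX.good_BC' (fun _ => 2 * Real.log 2) monotone_const _ hcox
  have hB2 : Pool.Agent.TH845.KN.BC (signedMeasures κ) :=
    Pool.Agent.W5h66.CX.good_BC' (fun x => 2 * Real.log 2 + Real.log (max 1 (κ x)))
      (fun x y hxy => by
        have h1 : (0 : ℝ) < max 1 (κ x) := lt_of_lt_of_le one_pos (le_max_left _ _)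
        have h2 := Real.log_le_log h1 (max_le_max le_rfl (hκ hxy))
        simpa using h2) _ hsig
  have hB := Pool.Agent.TH845.KN.BC.union hB1 hB2
  refine ⟨?_, fun x hx => hmem _ x hlog2 (hcox x hx), fun x hx => ?_, hB, ?_⟩
  · intro n A d i h
    have h0 := hdat _ A d h
    refine ⟨fun z hz => ?_, ?_, fun hA => ?_⟩
    · have h1 := h0.circle i z hz
      rw [coxeter_eq, coxeter_eq]
      have e1 : at1 (Pool.Agent.W5h66.CX.cox A + (X - 1) *
          Pool.Agent.W5h66.CX.cox (Pool.Agent.W5h66.CX.del A i)) z =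
          at1 (Pool.Agent.W5h66.CX.cox A) z +
            (z - 1) * at1 (Pool.Agent.W5h66.CX.cox (delete A i)) z := by
        unfold at1 delete Pool.Agent.W5h66.CX.del
        simp
      have e2 : at1 ((X - 1) * Pool.Agent.W5h66.CX.cox (Pool.Agent.W5h66.CX.del A i)) z =
          (z - 1) * at1 (Pool.Agent.W5h66.CX.cox (delete A i)) z := by
        unfold at1 delete Pool.Agent.W5h66.CX.del
        simp
      rw [← e1, ← e2]
      exact h1
    · rw [coxeter_eq, coxeter_eq]
      exact h0.aux i
    · rw [coxeter_eq, coxeter_eq]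
      exact h0.mono hA i
  · have h1 : 0 ≤ Real.log (max 1 (κ x)) := Real.log_nonneg (le_max_left _ _)
    rw [add_assoc]
    exact hmem _ x (by linarith) (hsig x hx)
  · intro T hT
    have h1 : Pool.Agent.TH845.KN.BC
        ((Submonoid.closure (T ∪ (coxeterMeasures ∪ signedMeasures κ)) : Submonoid ℝ) : Set ℝ) :=
      Pool.Agent.TH845.KN.BC_monoid (Pool.Agent.TH845.KN.BC.union hT hB)
    obtain ⟨h2, h3⟩ := Pool.Agent.W242.IM.closure_of_LL _ h1
    exact ⟨_, rfl, h1, h2, Pool.Agent.TH845.KN.gap_BC h1, h3⟩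

end

end Pool.Agent.Results.MP_6d22ea_nt.CoxeterElements
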