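import Pool.Agent.W5h6.LG.Dec

/-!
# Boyd's conjecture for diagonally dominant Hermitian matrices and for periodic graphs

Let `H = H^*` be a Hermitian matrix of Laurent polynomials in any number of variables with integer
coefficients (`H_wv(1/z) = H_vw(z)`) which is diagonally dominant: the constant coefficient of every
diagonal entry is at least the sum of the absolute values of all other coefficients in its row. We
show that the set of the Mahler measures of the determinants of all these matrices, of any size and in
any number of variables, is closed. For matrices of size one these are the self-reciprocal polynomials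
`F = F^*` with a dominant middle coefficient.

Such a matrix is the same as the Laplacian of a periodic signed graph with a ground vertex: a signed
graph with a free action of `ℤ ^ k` with `n` orbits of vertices, with finitely many orbits of edges,
some of which may join a vertex to the ground. The measure of the determinant is the exponential growth
rate of the number of (weighted) spanning forests of finite quotients (Lyons, Silver and Williams). The
set of the growth rates is also closed for the graphs without edges to the ground and for the graphs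
without signs (and for graphs with neither).

Method. The determinant is the sum of the hermitian squares of the maximal minors of the incidence
matrix, and each minor that is not zero has measure at least one; so a graph of growth rate `x` has at
most `x` bases (in the frame matroid of the periodic graph). An edge which is in all bases is
contracted, or removed with its vertex; after this the graph has less than `6 x` orbits of vertices and
less than `7 x` orbits of edges. So there are finitely many combinatorial types below every bound, and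
the shifts of the edges, written in a common basis of the sequences that occur, give a limit graph.
-/

set_option autoImplicit false

namespace Pool.Agent.Results.MP_6d22ea_nt.DiagonallyDominant

open scoped ComplexConjugate

noncomputable section

/-- Laurent polynomials in `k` variables with integer coefficients, as finitely supported functions
of the exponent vector. -/
abbrev Laurent (k : ℕ) : Type := (Fin k → ℤ) →₀ ℤ

/-- The monomial `z ^ a` at the torus point `z_j = exp (2 π i θ_j)`. -/
def character {k : ℕ} (a : Fin k → ℤ) (θ : Fin k → ℝ) : ℂ :=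
  Complex.exp (2 * (Real.pi : ℂ) * Complex.I * ((∑ i, (a i : ℝ) * θ i : ℝ) : ℂ))

/-- The value of a Laurent polynomial at a torus point. -/
def value {k : ℕ} (P : Laurent k) (θ : Fin k → ℝ) : ℂ := P.sum fun a c => (c : ℂ) * character a θ

/-- The sum of the absolute values of the coefficients. -/
def length {k : ℕ} (P : Laurent k) : ℤ := P.sum fun _ c => |c|

/-- `H_wv(1/z) = H_vw(z)`. -/
def Hermitian {n k : ℕ} (H : Matrix (Fin n) (Fin n) (Laurent k)) : Prop :=
  ∀ v w a, H w v (-a) = H v w a

/-- The constant coefficient of the diagonal entry is at least the sum of the absolute values of all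
other coefficients of the row. -/
def Dominant {n k : ℕ} (H : Matrix (Fin n) (Fin n) (Laurent k)) : Prop :=
  ∀ v, ∑ w, length (H v w) ≤ 2 * H v v 0

/-- The determinant at a torus point. -/
def detAt {n k : ℕ} (H : Matrix (Fin n) (Fin n) (Laurent k)) (θ : Fin k → ℝ) : ℂ :=
  (Matrix.of fun v w => value (H v w) θ : Matrix (Fin n) (Fin n) ℂ).det

/-- The Mahler measure of a function on the torus. -/
def mahlerOf {k : ℕ} (f : (Fin k → ℝ) → ℂ) : ℝ :=
  Real.exp (∫ θ in Set.Icc (0 : Fin k → ℝ) 1, Real.log ‖f θ‖)

/-- The value at a torus point of an integer polynomial. -/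
def polyAt {k : ℕ} (F : MvPolynomial (Fin k) ℤ) (θ : Fin k → ℝ) : ℂ :=
  MvPolynomial.eval (fun j : Fin k => Complex.exp (2 * (Real.pi : ℂ) * Complex.I * ((θ j : ℝ) : ℂ)))
    (MvPolynomial.map (Int.castRingHom ℂ) F)

/-- The set of the Mahler measures of the nonzero integer polynomials in any number of variables. -/
def allMeasures : Set ℝ :=
  {x : ℝ | ∃ k : ℕ, 1 ≤ k ∧ ∃ F : MvPolynomial (Fin k) ℤ, F ≠ 0 ∧ x = mahlerOf (polyAt F)}

/-- The measures of the determinants, not identically zero, of the diagonally dominant Hermitian
matrices of size `n`. -/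
def dominantMeasuresOfSize (n : ℕ) : Set ℝ :=
  {x : ℝ | ∃ k : ℕ, 1 ≤ k ∧ ∃ H : Matrix (Fin n) (Fin n) (Laurent k), Hermitian H ∧ Dominant H ∧
    (∃ θ, detAt H θ ≠ 0) ∧ x = mahlerOf (detAt H)}

/-- The measures for matrices of any size. -/
def dominantMeasures : Set ℝ := ⋃ n, dominantMeasuresOfSize n

/-- A periodic signed graph, that is a signed graph with a free action of `ℤ ^ k`, given by its
quotient: `n` orbits of vertices, and `edges` orbits of edges. The orbit `f` consists of the edges
from `g · source f` to `(g + shift f) · target f`, `g ∈ ℤ ^ k`, or to the ground if the target is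
`none`. -/
structure PeriodicGraph (n k : ℕ) where
  edges : ℕ
  source : Fin edges → Fin n
  target : Fin edges → Option (Fin n)
  shift : Fin edges → Fin k → ℤ
  sign : Fin edges → ℤˣ

/-- The incidence vector of an orbit of edges at the character `θ`. -/
def PeriodicGraph.incidence {n k : ℕ} (G : PeriodicGraph n k) (θ : Fin k → ℝ) (f : Fin G.edges)
    (v : Fin n) : ℂ :=
  (if G.source f = v then 1 else 0) -
    if G.target f = some v then ((G.sign f : ℤˣ) : ℤ) * character (G.shift f) θ else 0

/-- The Laplacian at the character `θ`. -/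
def PeriodicGraph.laplacian {n k : ℕ} (G : PeriodicGraph n k) (θ : Fin k → ℝ) :
    Matrix (Fin n) (Fin n) ℂ :=
  Matrix.of fun v w => ∑ f, G.incidence θ f v * conj (G.incidence θ f w)

/-- Edges to the ground, and negative edges, only if allowed. -/
def PeriodicGraph.Allowed {n k : ℕ} (G : PeriodicGraph n k) (grounded signed : Bool) : Prop :=
  (grounded = false → ∀ f, G.target f ≠ none) ∧ (signed = false → ∀ f, G.sign f = 1)

/-- The exponentials of the means of `log det` of the Laplacians, not identically singular, of the
periodic graphs with `n` orbits of vertices and `m` orbits of edges. -/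
def growthRatesOfSize (grounded signed : Bool) (n m : ℕ) : Set ℝ :=
  {x : ℝ | ∃ k : ℕ, 1 ≤ k ∧ ∃ G : PeriodicGraph n k, G.Allowed grounded signed ∧ G.edges = m ∧
    (∃ θ, (G.laplacian θ).det ≠ 0) ∧ x = mahlerOf fun θ => (G.laplacian θ).det}

/-- The growth rates of all periodic graphs of the class. -/
def growthRates (grounded signed : Bool) : Set ℝ := ⋃ n, ⋃ m, growthRatesOfSize grounded signed n m

open Pool.Agent.W5h6.LG

/-- the graph of the helper files -/
def PeriodicGraph.toPG {n k : ℕ} (G : PeriodicGraph n k) : PG n k :=
  ⟨G.edges, G.source, G.target, G.shift, G.sign⟩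

def ofPG {n k : ℕ} (G : PG n k) : PeriodicGraph n k :=
  ⟨G.edges, G.source, G.target, G.shift, G.sign⟩

theorem exists_gr {grounded signed : Bool} {n m : ℕ} {x : ℝ}
    (hx : x ∈ growthRatesOfSize grounded signed n m) :
    ∃ (k : ℕ) (G : Gr n m k), 1 ≤ k ∧ G.Adm (grounded = true) (signed = true) ∧ G.Good ∧
      x = G.meas := by
  obtain ⟨k, hk, G, hA, rfl, hne, rfl⟩ := hx
  refine ⟨k, G.toPG.toGr, hk, ⟨fun f hf => ?_, fun f hf => ?_⟩, ?_, ?_⟩
  · by_contra h
    exact hA.1 (by simpa using h) f hf
  · by_contra h
    apply hf
    refine ⟨rfl, ?_⟩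
    change -(G.sign f) = -1
    rw [hA.2 (by simpa using h) f]
  · obtain ⟨θ, hθ⟩ := hne
    have h1 : (G.toPG.lap θ).det ≠ 0 := hθ
    rw [PG.lap_toGr] at h1
    exact (Gr.good_iff G.toPG.toGr).mpr ⟨θ, h1⟩
  · exact (PG.growth_toGr G.toPG).symm

theorem mem_of_gr {grounded signed : Bool} {n m k : ℕ} (G : Gr n m k) (hk : 1 ≤ k)
    (hA : G.Adm (grounded = true) (signed = true)) (hG : G.Good) :
    G.meas ∈ growthRatesOfSize grounded signed n m := by
  refine ⟨k, hk, ofPG G.toPG, ⟨fun h f hf => ?_, fun h f => ?_⟩, rfl, ?_, ?_⟩
  · have := hA.1 f hf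
    rw [h] at this
    exact absurd this (by simp)
  · have h1 : G.σ f = 1 ∧ G.τ f = -1 := by
      by_contra h2
      have := hA.2 f h2
      rw [h] at this
      exact absurd this (by simp)
    change -(G.σ f * G.τ f) = 1
    rw [h1.1, h1.2]
    simp
  · obtain ⟨θ, hθ⟩ := G.good_iff.mp hG
    refine ⟨θ, ?_⟩
    have h1 : G.toPG.lap θ = G.ev θ * (G.ev θ).conjTranspose := G.lap_toPG θ
    change (G.toPG.lap θ).det ≠ 0
    rw [h1]
    exact hθ
  · rw [← Gr.growth_toPG]
    rfl

theorem growthRates_eq (grounded signed : Bool) :
    growthRates grounded signed = TL (grounded = true) (signed = true) := by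
  ext x
  unfold growthRates
  rw [Set.mem_iUnion]
  constructor
  · rintro ⟨n, h⟩
    rw [Set.mem_iUnion] at h
    obtain ⟨m, h⟩ := h
    obtain ⟨k, G, hk, hA, hG, hx⟩ := exists_gr h
    exact ⟨k, n, m, G, hk, hA, hG, hx⟩
  · rintro ⟨k, n, m, G, hk, hA, hG, rfl⟩
    exact ⟨n, Set.mem_iUnion.mpr ⟨m, mem_of_gr G hk hA hG⟩⟩

theorem small {grounded signed : Bool} {x : ℝ} (hx : x ∈ growthRates grounded signed) :
    ∃ n m, n + 6 ≤ 6 * ⌊x⌋₊ ∧ m + 7 ≤ 7 * ⌊x⌋₊ ∧ x ∈ growthRatesOfSize grounded signed n m := by
  unfold growthRates at hx
  rw [Set.mem_iUnion] at hx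
  obtain ⟨n, hx⟩ := hx
  rw [Set.mem_iUnion] at hx
  obtain ⟨m, hx⟩ := hx
  obtain ⟨k, G, hk, hA, hG, rfl⟩ := exists_gr hx
  obtain ⟨n', m', G', h1, h2, h3, h4, h5⟩ := G.reduce _ _ k (n + m) n m le_rfl hA hG
  refine ⟨n', m', h4, h5, ?_⟩
  rw [← h3]
  exact mem_of_gr G' hk h1 h2

theorem dominant_iff {n : ℕ} {x : ℝ} :
    x ∈ dominantMeasuresOfSize n ↔ ∃ m, x ∈ growthRatesOfSize true true n m := by
  constructor
  · rintro ⟨k, hk, H, hH, hD, hne, rfl⟩
    obtain ⟨G, hG⟩ := exists_PG (H := H) hH hD
    refine ⟨G.edges, k, hk, ofPG G, ⟨fun h => absurd h (by simp), fun h => absurd h (by simp)⟩, rfl,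
      ?_, ?_⟩
    · obtain ⟨θ, hθ⟩ := hne
      refine ⟨θ, ?_⟩
      change (G.lap θ).det ≠ 0
      rw [hG θ]
      exact hθ
    · have h1 : ∀ θ, ((ofPG G).laplacian θ).det = detAt H θ := by
        intro θ
        change (G.lap θ).det = _
        rw [hG θ]
        rfl
      simp only [h1]
  · rintro ⟨m, k, hk, G, _, _, hne, rfl⟩
    obtain ⟨H, hH, hD, hv⟩ := G.toPG.exists_dom
    have h1 : ∀ θ, (G.laplacian θ).det = detAt H θ := by
      intro θ
      change (G.toPG.lap θ).det = _
      rw [← hv θ]
      rfl
    refine ⟨k, hk, H, hH, hD, ?_, ?_⟩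
    · obtain ⟨θ, hθ⟩ := hne
      exact ⟨θ, by rw [← h1]; exact hθ⟩
    · simp only [h1]

theorem dominantMeasures_eq : dominantMeasures = growthRates true true := by
  unfold dominantMeasures growthRates
  refine Set.iUnion_congr fun n => ?_
  ext x
  rw [Set.mem_iUnion]
  exact dominant_iff

theorem one_or_two {grounded signed : Bool} {x : ℝ} (hx : x ∈ growthRates grounded signed) :
    x = 1 ∨ 2 ≤ x := by
  by_cases h2 : 2 ≤ x
  · exact Or.inr h2
  · left
    obtain ⟨n, m, hn, hm, hxs⟩ := small hx
    obtain ⟨k, G, _, _, hG, rfl⟩ := exists_gr hxs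
    push Not at h2
    have h3 : ⌊G.meas⌋₊ < 2 := by
      rw [Nat.floor_lt' (by norm_num)]
      exact_mod_cast h2
    have hn0 : n = 0 := by omega
    subst hn0
    have h4 : ∀ θ, G.ldet θ = 1 := fun θ => Matrix.det_fin_zero
    unfold Gr.meas
    simp only [h4]
    simp

theorem subset_all {grounded signed : Bool} : growthRates grounded signed ⊆ allMeasures := by
  intro x hx
  rw [growthRates_eq] at hx
  obtain ⟨k, n, m, G, hk, _, hG, rfl⟩ := hx
  exact ⟨k, hk, _, Gr.F_ne hG, G.meas_eq⟩

/-- (1) The set of the Mahler measures of the determinants, not identically zero, of all diagonally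
dominant Hermitian matrices of integer Laurent polynomials, of any size and in any number of variables,
is closed; it consists of Mahler measures of integer polynomials; its elements are `1` or at least `2`,
and its element `x` is the measure of such a matrix of size at most `6 ⌊x⌋ - 6`. (2) For each of the
four classes of periodic graphs (with or without edges to the ground, with or without signs) the set of
the growth rates is closed, and its element `x` is the growth rate of a graph of the class with at most
`6 ⌊x⌋ - 6` orbits of vertices and `7 ⌊x⌋ - 7` orbits of edges. With ground and signs the set is the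
one in (1), for each number of orbits of vertices. -/
theorem result :
    (IsClosed dominantMeasures ∧ dominantMeasures ⊆ allMeasures ∧
      ∀ x ∈ dominantMeasures, (x = 1 ∨ 2 ≤ x) ∧
        ∃ n, n + 6 ≤ 6 * ⌊x⌋₊ ∧ x ∈ dominantMeasuresOfSize n) ∧
    (∀ grounded signed : Bool, IsClosed (growthRates grounded signed) ∧
      ∀ x ∈ growthRates grounded signed, ∃ n m, n + 6 ≤ 6 * ⌊x⌋₊ ∧ m + 7 ≤ 7 * ⌊x⌋₊ ∧
        x ∈ growthRatesOfSize grounded signed n m) ∧
    ∀ n, dominantMeasuresOfSize n = ⋃ m, growthRatesOfSize true true n m := by
  have hcl : ∀ grounded signed : Bool, IsClosed (growthRates grounded signed) := fun g s => by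
    rw [growthRates_eq]
    exact closed_TL _ _
  refine ⟨⟨?_, ?_, ?_⟩, fun g s => ⟨hcl g s, fun x hx => small hx⟩, ?_⟩
  · rw [dominantMeasures_eq]
    exact hcl true true
  · rw [dominantMeasures_eq]
    exact subset_all
  · intro x hx
    rw [dominantMeasures_eq] at hx
    obtain ⟨n, m, hn, _, hxs⟩ := small hx
    exact ⟨one_or_two hx, n, hn, dominant_iff.mpr ⟨m, hxs⟩⟩
  · intro n
    ext x
    rw [Set.mem_iUnion]
    exact dominant_iff

end

end Pool.Agent.Results.MP_6d22ea_nt.DiagonallyDominant
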