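import Pool.Agent.W5h66.LX.A

/-!
# Boyd's conjecture for isometries of Lorentzian lattices with axis near a lattice vector

Let `G` be an integral symmetric matrix of any size `n` and `A` an integral isometry of the form `G`
with eigenvectors `e`, `f` for real eigenvalues `β > 1` and `1 / β`, such that `G` is positive
definite on the vectors orthogonal to `e` and `f`. So `G` is an integral lattice of signature
`(n - 1, 1)`, `A` acts on hyperbolic `(n - 1)`-space as a loxodromic isometry whose axis has the ends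
`e`, `f`, and `β` is a quadratic unit or a Salem number, the Mahler measure of the characteristic
polynomial of `A`, which is self-reciprocal.

Let `κ` be a monotone function, given once and for all, and let `axisMeasures κ` be the set of these
numbers `β`, for all lattices of all dimensions and discriminants, for which there is a vector `v` of
the lattice with `(v, v) ≤ κ(β)` and `0 < |(v, e) (v, f) / (e, f)| ≤ κ(β)`. Geometrically:
* if `(v, v) = - k` is negative and the point `v` of hyperbolic space has distance `R` from the axis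
  then `(v, e) (v, f) / (e, f) = - (k / 2) cosh (R) ^ 2`;
* if `(v, v) = k` is positive and the axis crosses the hyperplane orthogonal to `v` then
  `0 < (v, e) (v, f) / (e, f) ≤ k / 2`; so it is enough that the axis crosses the mirror of a root,
  or the hyperplane of a vector with `(v, v) ≤ κ(β)`;
* if `(v, v) = k` is positive and the axis has distance `R > 0` from this hyperplane then
  `(v, e) (v, f) / (e, f) = - (k / 2) sinh (R) ^ 2`.

The theorem: every such `β` is the measure of a polynomial with a coprime companion of height at most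
`log β + 9 log 2 + 9 log (1 + 3 κ(β))`. Hence the set has bounded companions, and the closure of the
multiplicative monoid generated by it and by any other class with bounded companions consists of
Mahler measures of integer polynomials in several variables; it has a gap above `1`, and below every
bound it has finite Cantor-Bendixson rank.
-/

set_option autoImplicit false

namespace Pool.Agent.Results.MP_6d22ea_nt.LorentzianAxes

noncomputable section

/-- Value of an integer polynomial in `k` variables at the torus point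
`(exp (2 π i t_1), …, exp (2 π i t_k))`. -/
def value {k : ℕ} (F : MvPolynomial (Fin k) ℤ) (t : Fin k → ℝ) : ℂ :=
  MvPolynomial.eval
    (fun j : Fin k => Complex.exp (2 * (Real.pi : ℂ) * Complex.I * ((t j : ℝ) : ℂ)))
    (MvPolynomial.map (Int.castRingHom ℂ) F)

/-- The Mahler measure of an integer polynomial in `k` variables. -/
def mahler {k : ℕ} (F : MvPolynomial (Fin k) ℤ) : ℝ :=
  Real.exp (∫ t in Set.Icc (0 : Fin k → ℝ) 1, Real.log ‖value F t‖)

/-- The integral of `log max(|F|, |G|)` over the torus. -/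
def pairHeight {k : ℕ} (F G : MvPolynomial (Fin k) ℤ) : ℝ :=
  ∫ t in Set.Icc (0 : Fin k → ℝ) 1, Real.log (max ‖value F t‖ ‖value G t‖)

/-- The set of the Mahler measures of the nonzero integer polynomials in any number of variables. -/
def allMeasures : Set ℝ :=
  {x : ℝ | ∃ k : ℕ, 1 ≤ k ∧ ∃ F : MvPolynomial (Fin k) ℤ, F ≠ 0 ∧ x = mahler F}

/-- The Mahler measures of the nonzero polynomials `F` having a coprime companion `G ≠ 0` with
`∫ log max(|F|, |G|) ≤ K`. -/
def L (K : ℝ) : Set ℝ :=
  {x : ℝ | ∃ k : ℕ, 1 ≤ k ∧ ∃ F G : MvPolynomial (Fin k) ℤ, F ≠ 0 ∧ G ≠ 0 ∧ IsRelPrime F G ∧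
    pairHeight F G ≤ K ∧ x = mahler F}

/-- For every `B` some `L K` contains all elements of `T` below `B`. -/
def BoundedCompanions (T : Set ℝ) : Prop := ∀ B : ℝ, ∃ K : ℝ, T ∩ Set.Iio B ⊆ L K

/-- The symmetric bilinear form with the integral Gram matrix `G`. -/
def form {n : ℕ} (G : Matrix (Fin n) (Fin n) ℤ) (x y : Fin n → ℝ) : ℝ :=
  ∑ i, ∑ j, x i * (G i j : ℝ) * y j

/-- `A` is an integral isometry of the integral symmetric form `G`, with eigenvectors `e` and `f` for
the eigenvalues `β > 1` and `1 / β`, and `G` is positive definite on the space of the vectors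
orthogonal to `e` and `f`. -/
structure IsLoxodromic {n : ℕ} (G A : Matrix (Fin n) (Fin n) ℤ) (e f : Fin n → ℝ) (β : ℝ) :
    Prop where
  symmetric : G.transpose = G
  isometry : A.transpose * G * A = G
  one_lt : 1 < β
  eigen_e : ∀ i, ∑ j, (A i j : ℝ) * e j = β * e i
  eigen_f : ∀ i, ∑ j, (A i j : ℝ) * f j = β⁻¹ * f i
  positive : ∀ x : Fin n → ℝ, x ≠ 0 → form G e x = 0 → form G f x = 0 → 0 < form G x x

/-- `v` is a lattice vector with `(v, v) ≤ L` and `0 < |(v, e) (v, f)| ≤ L |(e, f)|`: the axis with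
the ends `e`, `f` is at bounded distance from `v`, or from the hyperplane orthogonal to `v`. -/
def NearAxis (L : ℝ) {n : ℕ} (G : Matrix (Fin n) (Fin n) ℤ) (e f : Fin n → ℝ) (v : Fin n → ℤ) :
    Prop :=
  form G (fun i => (v i : ℝ)) (fun i => (v i : ℝ)) ≤ L ∧
    0 < |form G e (fun i => (v i : ℝ)) * form G f (fun i => (v i : ℝ))| ∧
    |form G e (fun i => (v i : ℝ)) * form G f (fun i => (v i : ℝ))| ≤ L * |form G e f|

/-- The numbers `β` of the loxodromic isometries of Lorentzian lattices, of all dimensions and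
discriminants, whose axis is near a lattice vector, with the constant `κ β`. -/
def axisMeasures (κ : ℝ → ℝ) : Set ℝ :=
  {β : ℝ | ∃ (n : ℕ) (G A : Matrix (Fin n) (Fin n) ℤ) (e f : Fin n → ℝ) (v : Fin n → ℤ),
    IsLoxodromic G A e f β ∧ NearAxis (κ β) G e f v}

theorem result (κ : ℝ → ℝ) (hκ : Monotone κ) :
    (∀ (n : ℕ) (G A : Matrix (Fin n) (Fin n) ℤ) (e f : Fin n → ℝ) (β : ℝ) (v : Fin n → ℤ),
      IsLoxodromic G A e f β → NearAxis (κ β) G e f v →
        (A.charpoly.map (Int.castRingHom ℂ)).mahlerMeasure = β ∧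
        β ∈ L (Real.log β + 9 * Real.log 2 + 9 * Real.log (1 + 3 * κ β))) ∧
    BoundedCompanions (axisMeasures κ) ∧
    ∀ T : Set ℝ, BoundedCompanions T →
      BoundedCompanions (Submonoid.closure (T ∪ axisMeasures κ) : Submonoid ℝ) ∧
      closure ((Submonoid.closure (T ∪ axisMeasures κ) : Submonoid ℝ) : Set ℝ) ⊆ allMeasures ∧
      (∃ δ : ℝ, 1 < δ ∧ ∀ x ∈ (Submonoid.closure (T ∪ axisMeasures κ) : Submonoid ℝ),
        x = 1 ∨ δ ≤ x) ∧
      ∀ B : ℝ, ∃ m : ℕ, ∀ x ∈ derivedSet^[m]
        ((Submonoid.closure (T ∪ axisMeasures κ) : Submonoid ℝ) : Set ℝ), B ≤ x := by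
  have key : ∀ (n : ℕ) (G A : Matrix (Fin n) (Fin n) ℤ) (e f : Fin n → ℝ) (β L : ℝ)
      (v : Fin n → ℤ), IsLoxodromic G A e f β → NearAxis L G e f v →
      Pool.Agent.Y820.LB.Good (Pool.Agent.W5h66.LX.cst L) A.charpoly ∧
        Pool.Agent.H261R2.CM.m1 A.charpoly = β := by
    intro n G A e f β L v hA hv
    obtain ⟨h1, h2, h3⟩ := hv
    refine Pool.Agent.W5h66.LX.good_real L n G A e f β v hA.symmetric hA.isometry hA.one_lt ?_ ?_
      hA.positive h1 (abs_pos.mp h2) h3
    · ext i
      simpa [Matrix.mulVec, dotProduct] using hA.eigen_e i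
    · ext i
      simpa [Matrix.mulVec, dotProduct] using hA.eigen_f i
  have hpos : ∀ (n : ℕ) (G : Matrix (Fin n) (Fin n) ℤ) (e f : Fin n → ℝ) (L : ℝ)
      (v : Fin n → ℤ), NearAxis L G e f v → 0 < L := by
    intro n G e f L v hv
    obtain ⟨_, h2, h3⟩ := hv
    by_contra hL
    push Not at hL
    have h4 : L * |form G e f| ≤ 0 := mul_nonpos_of_nonpos_of_nonneg hL (abs_nonneg _)
    linarith
  have hB : Pool.Agent.TH845.KN.BC (axisMeasures κ) := by
    refine Pool.Agent.W5h66.LX.good_BC (fun x => Pool.Agent.W5h66.LX.cst (max 0 (κ x))) ?_ _ ?_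
    · intro x y hxy
      exact Pool.Agent.W5h66.LX.cst_mono (le_max_left _ _) (max_le_max le_rfl (hκ hxy))
    · rintro β ⟨n, G, A, e, f, v, hA, hv⟩
      have h0 := hpos n G e f _ v hv
      obtain ⟨h1, h2⟩ := key n G A e f β (κ β) v hA hv
      refine ⟨A.charpoly, ?_, h2.symm⟩
      rw [max_eq_right h0.le]
      exact h1
  refine ⟨?_, hB, ?_⟩
  · intro n G A e f β v hA hv
    have h0 := hpos n G e f _ v hv
    obtain ⟨h1, h2⟩ := key n G A e f β (κ β) v hA hv
    refine ⟨h2, ?_⟩
    have hβ := hA.one_lt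
    rcases Pool.Agent.Y820.LB.good_pair _ _ h1 with h3 | ⟨D, P, Q, _, h4, h5, h6, _, h8, h9⟩
    · rw [h2] at h3
      exact absurd h3 hβ.ne'
    · have h10 : β = Pool.Agent.H261R2.CM.m1 P := by rw [← h8, h2]
      rw [h10]
      refine Pool.Agent.W242.IM.m1_mem_LL P Q h4 h5 h6 _ (h9.trans ?_)
      rw [← h10]
      unfold Pool.Agent.W5h66.LX.cst
      have h11 : Real.log (1 + 2 * κ β) ≤ Real.log (1 + 3 * κ β) :=
        Real.log_le_log (by linarith) (by linarith)
      linarith
  · intro T hT
    have h1 : Pool.Agent.TH845.KN.BC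
        ((Submonoid.closure (T ∪ axisMeasures κ) : Submonoid ℝ) : Set ℝ) :=
      Pool.Agent.TH845.KN.BC_monoid (Pool.Agent.TH845.KN.BC.union hT hB)
    obtain ⟨h2, h3⟩ := Pool.Agent.W242.IM.closure_of_LL _ h1
    exact ⟨h1, h2, Pool.Agent.TH845.KN.gap_BC h1, h3⟩

end

end Pool.Agent.Results.MP_6d22ea_nt.LorentzianAxes
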