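import Pool.Agent.W5h6.HS.Gram

/-!
# Boyd's conjecture for sums of hermitian squares

Let `P^*(z) = P(1/z)`.  The integer Laurent polynomials `F = P_1 P_1^* + ... + P_r P_r^*` are
self-reciprocal and not negative on the torus.  If the common divisors of `P_1, ..., P_r` were allowed
to be arbitrary, Boyd's conjecture for these `F` would be the conjecture itself (`F = P P^*` has the
measure `M(P)^2`).  We show that common divisors are the only difficulty: the set of the Mahler
measures of all `F = P_1 P_1^* + ... + P_r P_r^*`, in any number of variables and with any number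
`r` of squares, for which the common divisors of `P_1, ..., P_r` have measure one is closed.  It
contains the measures of all Gram determinants `det (D D^*)` of matrices `D` of polynomials whose
maximal minors have only common divisors of measure one (for instance determinants of Laplacians of
periodic graphs and of combinatorial Laplace operators).

More generally `F` may be the value `Φ(P_1, ..., P_r, P_1^*, ..., P_r^*)` of any fixed bihomogeneous
integral form `Φ(x, y)` with `Φ(x, conj x) ≠ 0` for all complex `x ≠ 0`.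

Method: a tuple of one variable polynomials without common divisor has bounded height
`∫ log max |P_i|` if the measure of `F` is bounded; by the compactness theorem for pairs of the
starting files (modules `H261R2.CM`), applied to the pairs `(P_i, P_j)` divided by their common
divisors, and a common basis for the exponents that occur, a sequence of such tuples is, along an
ultrafilter, proportional to the specialisations of one tuple of polynomials in several variables
without common divisor, and the measures of the common divisors of these specialisations tend to one.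
-/

set_option autoImplicit false

namespace Pool.Agent.Results.MP_6d22ea_nt.SumsOfHermitianSquares

open MvPolynomial

noncomputable section

/-- Value of an integer polynomial in `k` variables at the torus point
`(exp (2 π i t_1), …, exp (2 π i t_k))`. -/
def value {k : ℕ} (F : MvPolynomial (Fin k) ℤ) (t : Fin k → ℝ) : ℂ :=
  MvPolynomial.eval (fun j : Fin k => Complex.exp (2 * (Real.pi : ℂ) * Complex.I * ((t j : ℝ) : ℂ)))
    (MvPolynomial.map (Int.castRingHom ℂ) F)

/-- The Mahler measure of an integer polynomial in `k` variables. -/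
def mahler {k : ℕ} (F : MvPolynomial (Fin k) ℤ) : ℝ :=
  Real.exp (∫ t in Set.Icc (0 : Fin k → ℝ) 1, Real.log ‖value F t‖)

/-- The integral of `log max(|F|, |G|)` over the torus. -/
def pairHeight {k : ℕ} (F G : MvPolynomial (Fin k) ℤ) : ℝ :=
  ∫ t in Set.Icc (0 : Fin k → ℝ) 1, Real.log (max ‖value F t‖ ‖value G t‖)

/-- The set of the Mahler measures of the nonzero integer polynomials in any number of variables. -/
def allMeasures : Set ℝ :=
  {x : ℝ | ∃ k : ℕ, 1 ≤ k ∧ ∃ F : MvPolynomial (Fin k) ℤ, F ≠ 0 ∧ x = mahler F}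

/-- The Mahler measures of the nonzero polynomials `F` having a coprime companion `G ≠ 0` with
`∫ log max(|F|, |G|) ≤ K`. -/
def L (K : ℝ) : Set ℝ :=
  {x : ℝ | ∃ k : ℕ, 1 ≤ k ∧ ∃ F G : MvPolynomial (Fin k) ℤ, F ≠ 0 ∧ G ≠ 0 ∧ IsRelPrime F G ∧
    pairHeight F G ≤ K ∧ x = mahler F}

/-- For every `B` some `L K` contains all elements of `T` below `B`. -/
def BoundedCompanions (T : Set ℝ) : Prop := ∀ B : ℝ, ∃ K : ℝ, T ∩ Set.Iio B ⊆ L K

/-- `z^d P(1/z)`, `d ≥ deg P`. -/
def reversed {k : ℕ} (d : Fin k → ℕ) (P : MvPolynomial (Fin k) ℤ) : MvPolynomial (Fin k) ℤ :=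
  ∑ s ∈ P.support, monomial (Finsupp.equivFunOnFinite.symm fun i => d i - s i) (P.coeff s)

/-- The common degree vector of a tuple: the largest degrees in the variables. -/
def degrees {r k : ℕ} (P : Fin r → MvPolynomial (Fin k) ℤ) (j : Fin k) : ℕ :=
  Finset.univ.sup fun i => (P i).degreeOf j

/-- The polynomial `Φ(P_1, …, P_r, z^d P_1(1/z), …, z^d P_r(1/z))`, `d` the common degree vector. On the
torus it is `z^(b d) Φ(P_1, …, P_r, conj P_1, …, conj P_r)` for `Φ` of bidegree `(a, b)`. -/
def formValue {r k : ℕ} (Φ : MvPolynomial (Fin r ⊕ Fin r) ℤ) (P : Fin r → MvPolynomial (Fin k) ℤ) :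
    MvPolynomial (Fin k) ℤ :=
  aeval (Sum.elim P fun i => reversed (degrees P) (P i)) Φ

/-- Homogeneous of degree `a` in the first and of degree `b` in the second group of variables. -/
def Bihomogeneous {r : ℕ} (Φ : MvPolynomial (Fin r ⊕ Fin r) ℤ) (a b : ℕ) : Prop :=
  ∀ s ∈ Φ.support, (∑ i, s (Sum.inl i) = a) ∧ ∑ i, s (Sum.inr i) = b

/-- `Φ(x, conj x) ≠ 0` for all complex vectors `x ≠ 0`. -/
def Elliptic {r : ℕ} (Φ : MvPolynomial (Fin r ⊕ Fin r) ℤ) : Prop :=
  ∀ x : Fin r → ℂ, x ≠ 0 →
    eval (Sum.elim x fun i => starRingEnd ℂ (x i)) (map (Int.castRingHom ℂ) Φ) ≠ 0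

/-- All common divisors have Mahler measure one (for instance: there are none except `1` and `-1`). -/
def EssentiallyCoprime {ι : Type} {k : ℕ} (P : ι → MvPolynomial (Fin k) ℤ) : Prop :=
  ∀ D : MvPolynomial (Fin k) ℤ, (∀ i, D ∣ P i) → mahler D = 1

/-- The measures of the values of `Φ` at the essentially coprime tuples. -/
def formMeasures {r : ℕ} (Φ : MvPolynomial (Fin r ⊕ Fin r) ℤ) : Set ℝ :=
  {x : ℝ | ∃ k : ℕ, 1 ≤ k ∧ ∃ P : Fin r → MvPolynomial (Fin k) ℤ, EssentiallyCoprime P ∧
    x = mahler (formValue Φ P)}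

/-- The sum of hermitian squares `∑ P_i(z) z^d P_i(1/z)`. -/
def sumOfSquares {r k : ℕ} (P : Fin r → MvPolynomial (Fin k) ℤ) : MvPolynomial (Fin k) ℤ :=
  ∑ i, P i * reversed (degrees P) (P i)

/-- The measures of the sums of any number of hermitian squares of essentially coprime tuples. -/
def squareMeasures : Set ℝ :=
  {x : ℝ | ∃ k : ℕ, 1 ≤ k ∧ ∃ (r : ℕ) (P : Fin r → MvPolynomial (Fin k) ℤ), EssentiallyCoprime P ∧
    x = mahler (sumOfSquares P)}

theorem value_sq {r k : ℕ} (P : Fin r → MvPolynomial (Fin k) ℤ) :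
    sumOfSquares P = Pool.Agent.W5h6.HS.Fk (Pool.Agent.W5h6.HS.sq (Fin r)) P := by
  unfold sumOfSquares Pool.Agent.W5h6.HS.Fk Pool.Agent.W5h6.HS.sq
  rw [map_sum]
  refine Finset.sum_congr rfl fun i _ => ?_
  rw [map_mul, aeval_X, aeval_X]
  rfl

open Pool.Agent.W5h6.HS in
theorem ess_of_cop {ι : Type} {k : ℕ} {P : ι → MvPolynomial (Fin k) ℤ} (hP : Cop P) :
    EssentiallyCoprime P := by
  intro D hD
  have hu := hP D hD
  rw [MvPolynomial.isUnit_iff_eq_C_of_isReduced] at hu
  obtain ⟨c, hc, rfl⟩ := hu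
  unfold mahler
  have h1 : ∀ t, ‖value (C c : MvPolynomial (Fin k) ℤ) t‖ = 1 := by
    intro t
    have h5 : value (C c : MvPolynomial (Fin k) ℤ) t = (c : ℂ) := by simp [value]
    rw [h5]
    rcases Int.isUnit_iff.mp hc with rfl | rfl
    · simp
    · simp
  simp only [h1]
  simp

open Pool.Agent.W5h6.HS in
theorem formMeasures_eq {r : ℕ} (Φ : MvPolynomial (Fin r ⊕ Fin r) ℤ) {a b : ℕ}
    (h : Bihomogeneous Φ a b) (hE : Elliptic Φ) : formMeasures Φ = SF Φ := by
  ext x
  constructor
  · rintro ⟨k, hk, P, hP, rfl⟩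
    obtain ⟨Q, hQ, h1, _, _⟩ := reduce_ess Φ h hE P hP
    exact ⟨k, hk, Q, hQ, h1⟩
  · rintro ⟨k, hk, P, hP, rfl⟩
    exact ⟨k, hk, P, ess_of_cop hP, rfl⟩

theorem squareMeasures_eq : squareMeasures = Pool.Agent.W5h6.HS.SQ := by
  ext x
  constructor
  · rintro ⟨k, hk, r, P, hP, rfl⟩
    obtain ⟨Q, hQ, h1, _, _⟩ := Pool.Agent.W5h6.HS.reduce_ess (Pool.Agent.W5h6.HS.sq (Fin r))
      Pool.Agent.W5h6.HS.biHom_sq Pool.Agent.W5h6.HS.ell_sq P hP
    refine ⟨k, hk, r, Q, hQ, ?_⟩
    rw [value_sq]
    exact h1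
  · rintro ⟨k, hk, r, P, hP, rfl⟩
    refine ⟨k, hk, r, P, ess_of_cop hP, ?_⟩
    rw [value_sq]
    rfl

/-- (1) For every bihomogeneous elliptic integral form `Φ` of positive degree in `r ≥ 1` pairs of
variables the set of the Mahler measures of its values at the essentially coprime tuples of integer
polynomials (in any number of variables) is closed and has bounded companions. (2) The same for the
sums of any number of hermitian squares of essentially coprime tuples; these measures are `1` or at
least `2`, each of them, `x`, is in `L (2 log x)`, and the measure of a sum of hermitian squares of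
`r ≥ 1` nonzero polynomials is at least the sum of the squares of their measures. (3) Let `T` be a set
with bounded companions. The monoid generated by `T` and by the measures in (2) has bounded companions,
its closure consists of Mahler measures, and below every bound it has finite Cantor-Bendixson rank.
(4) Let `D` be a matrix of integer polynomials whose maximal minors are essentially coprime. The
exponential of the mean over the torus of `log det (D D^H)`, `D^H` the conjugate transpose, is one of
the measures in (2). -/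
theorem result :
    (∀ (r a b : ℕ), 1 ≤ r → 0 < a + b → ∀ Φ : MvPolynomial (Fin r ⊕ Fin r) ℤ,
      Bihomogeneous Φ a b → Elliptic Φ →
        IsClosed (formMeasures Φ) ∧ BoundedCompanions (formMeasures Φ)) ∧
    (IsClosed squareMeasures ∧ BoundedCompanions squareMeasures ∧
      (∀ x ∈ squareMeasures, (x = 1 ∨ 2 ≤ x) ∧ x ∈ L (2 * Real.log x)) ∧
      ∀ (r k : ℕ) (P : Fin r → MvPolynomial (Fin k) ℤ), 1 ≤ r → (∀ i, P i ≠ 0) →
        ∑ i, mahler (P i) ^ 2 ≤ mahler (sumOfSquares P)) ∧
    (∀ T : Set ℝ, BoundedCompanions T →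
      BoundedCompanions (Submonoid.closure (T ∪ squareMeasures) : Submonoid ℝ) ∧
      closure ((Submonoid.closure (T ∪ squareMeasures) : Submonoid ℝ) : Set ℝ) ⊆ allMeasures ∧
      ∀ B : ℝ, ∃ m : ℕ, ∀ x ∈ derivedSet^[m]
        ((Submonoid.closure (T ∪ squareMeasures) : Submonoid ℝ) : Set ℝ), B ≤ x) ∧
    (∀ (k n m : ℕ), 1 ≤ k → ∀ D : Matrix (Fin n) (Fin m) (MvPolynomial (Fin k) ℤ),
      EssentiallyCoprime (fun J : {J : Fin n → Fin m // StrictMono J} =>
        (D.submatrix id J.1).det) →
      Real.exp (∫ t in Set.Icc (0 : Fin k → ℝ) 1,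
        Real.log ‖((D.map fun P => value P t) *
          (D.map fun P => value P t).conjTranspose).det‖) ∈ squareMeasures) := by
  have hSQ : Pool.Agent.TH845.KN.BC squareMeasures := by
    intro B
    refine ⟨2 * Real.log B, ?_⟩
    rintro x ⟨hx, hB⟩
    rw [squareMeasures_eq] at hx
    have h2 := Pool.Agent.W5h6.HS.SQ_LL hx
    refine Pool.Agent.H261R2.CM.LL_mono ?_ h2
    have h1 := Pool.Agent.TH845.KN.one_le_of_LL h2
    have h3 : Real.log x ≤ Real.log B := Real.log_le_log (by linarith) (le_of_lt hB)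
    linarith
  refine ⟨?_, ⟨?_, hSQ, ?_, ?_⟩, ?_, ?_⟩
  · intro r a b hr hab Φ h hE
    rw [formMeasures_eq Φ h hE]
    have : Nonempty (Fin r) := ⟨⟨0, hr⟩⟩
    refine ⟨Pool.Agent.W5h6.HS.closed_SF Φ h hE hab, fun B => ?_⟩
    obtain ⟨κ, hκ, hb⟩ := Pool.Agent.W5h6.HS.exists_kappa hr Φ h hE
    refine ⟨Real.log κ + Real.log B, ?_⟩
    rintro x ⟨⟨k, hk, P, hP, rfl⟩, hB⟩
    have h2 := Pool.Agent.W5h6.HS.mem_LL_of_bound hk Φ h hE κ hκ hb P hP
    refine Pool.Agent.H261R2.CM.LL_mono ?_ h2
    have h1 := Pool.Agent.TH845.KN.one_le_of_LL h2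
    have h3 := Real.log_le_log (by linarith) (le_of_lt hB)
    linarith
  · rw [squareMeasures_eq]
    exact Pool.Agent.W5h6.HS.closed_SQ
  · intro x hx
    rw [squareMeasures_eq] at hx
    exact ⟨Pool.Agent.W5h6.HS.one_or_two hx, Pool.Agent.W5h6.HS.SQ_LL hx⟩
  · intro r k P hr hP
    rw [value_sq]
    exact Pool.Agent.W5h6.HS.sum_sq_le P ⟨⟨0, hr⟩, hP _⟩ Finset.univ (fun i => by simp [hP i])
  · intro T hT
    have h1 : Pool.Agent.TH845.KN.BC
        ((Submonoid.closure (T ∪ squareMeasures) : Submonoid ℝ) : Set ℝ) :=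
      Pool.Agent.TH845.KN.BC_monoid (Pool.Agent.TH845.KN.BC.union hT hSQ)
    obtain ⟨h2, h3⟩ := Pool.Agent.W242.IM.closure_of_LL _ h1
    exact ⟨h1, h2, h3⟩
  · intro k n m hk D hD
    rw [squareMeasures_eq]
    exact Pool.Agent.W5h6.HS.gram_mem hk D fun E hE => hD E fun J => hE J.1 J.2

end

end Pool.Agent.Results.MP_6d22ea_nt.SumsOfHermitianSquares
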